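import Pool.Agent.MP_f692a6_lc.Hard
import Pool.Agent.MP_f692a6_lc.Tree

/-!
# Clique planarity with clusters of bounded size: the threshold is four

Clique planarity, in the path form, is NP-hard for clusters with at most `h` vertices, for each
`h ≥ 4`. For clusters with at most three vertices the path form agrees with the tree form, which is
clustered planarity of the c-graph given by the inter-cluster edges.
-/

set_option autoImplicit false

namespace Pool.Agent.Results.MP_f692a6_lc.CliquePathFourHard

open Pool.Agent.MP_f692a6_lc

/-- For each `h ≥ 4` the language of all c-graphs, with clusters that are cliques with at most `h`
vertices, which can be made planar by deleting intra-cluster edges so that each cluster induces a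
path through all of its vertices, is NP-hard. If all clusters of a c-graph have at most three
vertices, this condition holds if and only if it is possible to delete intra-cluster edges so that
each cluster induces a tree and the graph becomes planar. -/
theorem result :
    (∀ h : ℕ, 4 ≤ h → NPHard (CliquePlanarity h)) ∧
    ∀ I : CGraph, I.Proper → (∀ S ∈ I.clusters, S.length ≤ 3) → (I.PathPlanar ↔ I.TreePlanar) :=
  ⟨fun _ hh => hard hh, path_iff_tree⟩

end Pool.Agent.Results.MP_f692a6_lc.CliquePathFourHard
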